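import Pool.Agent.SFP.Fin4

/-!
# Serre's question (FP) => (FF) and projective class groups

`TypeFP G`, `TypeFF G`, `FreeRes m G` (files Hhelper49/Srr/GDefs.lean): the trivial module `ℤ` (respectively `ℤ^m`) has a
resolution of finite length by finitely generated projective (respectively free) `ℤ[G]`-modules.
`StFree G P` (SFP/Fin1.lean): `P ⊕ ℤ[G]^a ≃ ℤ[G]^b` for some `a`, `b`.  `KVanish G` (SFP/Fin4.lean): all finitely generated
projective `ℤ[G]`-modules are stably free.

1. Serre's question has a positive answer if and only if `KVanish G` for all groups `G` of type (FP), if and only if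
`KVanish G` for all groups `G` of type (FF).
2. The same holds in the category of finitely presented groups.
3. (Realisation) For every group `G` of type (FP) and every finitely generated projective `ℤ[G]`-module `P` there is a group
`R` of type (FP), finitely presented if `G` is, with a retraction onto `G` such that for all `m` the module `ℤ^m` has a finite
free resolution over `ℤ[R]` if and only if `P^m` is stably free.
-/

namespace Pool.Agent.Results.MP_d19827_al.ClassGroupEquivalence

open Pool.Agent.Hhelper49.Srr Pool.Agent.SFP

theorem result :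
    List.TFAE [∀ (G : Type) [Group G], TypeFP G → TypeFF G,
      ∀ (G : Type) [Group G], TypeFP G → KVanish G,
      ∀ (G : Type) [Group G], TypeFF G → KVanish G] ∧
    List.TFAE [
      ∀ (G : Type) [Group G], Group.IsFinitelyPresented G → TypeFP G → TypeFF G,
      ∀ (G : Type) [Group G], Group.IsFinitelyPresented G → TypeFP G → KVanish G,
      ∀ (G : Type) [Group G], Group.IsFinitelyPresented G → TypeFF G → KVanish G] ∧
    ∀ (G : Type) [Group G], TypeFP G → ∀ (P : Type) [AddCommGroup P]
      [Module (MonoidAlgebra ℤ G) P], Module.Finite (MonoidAlgebra ℤ G) P →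
        Module.Projective (MonoidAlgebra ℤ G) P →
          ∃ (R : Type) (_ : Group R) (i : G →* R) (r : R →* G), (∀ g, r (i g) = g) ∧ TypeFP R ∧
            (TypeFF R ↔ StFree G P) ∧ (∀ m, FreeRes m R ↔ StFree G (Fin m → P)) ∧
            (Group.IsFinitelyPresented G → Group.IsFinitelyPresented R) := by
  refine ⟨serre_tfae, serre_tfae_fpres, ?_⟩
  intro G _ hG P _ _ h1 h2
  obtain ⟨R, _, i, r, h3, h4, h5, h6⟩ := point_fp2 G hG P h1 h2
  refine ⟨R, inferInstance, i, r, h3, h4, ?_, h5, h6⟩
  rw [typeFF_iff, h5 1, stFree_one]

end Pool.Agent.Results.MP_d19827_al.ClassGroupEquivalence
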