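import Pool.Agent.SDec.Gen

/-!
# Serre's question (FP) => (FF) is a decidability question

1. Every group `G` of type (FP) embeds in one group `U` of type (FF), finitely presented if `G` is, such that for every finite
generating sequence `u` of `U` and every limit computable function `c : ℕ → ℕ` there is a primitive recursive sequence of
finite lists of words whose values in `U` generate subgroups `H_e` of type (FP) (finitely presented if `G` is), which contain
a copy of `G` and have the property: for all `e` and `m` the trivial module `ℤ^m` has a finite free resolution over `ℤ[H_e]`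
if and only if `ℤ^(m c(e))` has one over `ℤ[G]` (the finiteness obstruction of `H_e` behaves like `c(e)` times that of `G`).
2. If `G` is finitely presented then for every such `c` there is a primitive recursive sequence of finite presentations of
groups `Γ_e` of type (FP) which contain `G`, have no proper subgroups of finite index, and have the same property.
3. The following are equivalent: all groups of type (FP) are of type (FF); for every group `U` of type (FF) with a finite
generating sequence `u` and every primitive recursive sequence of finite lists of words whose values in `U` generate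
subgroups `H_e` of type (FP), type (FF) for `H_e` is decidable in the limit with a computable bound for the number of mind
changes; for every `U`, `u` some limit computable set of numbers is not reducible to type (FF) by such a sequence.
4. The same within finitely presented groups, where a fourth, fifth and sixth equivalent condition are: type (FF) is decidable
for finite presentations of groups of type (FP); it is decidable in the limit with a computable bound for the number of mind
changes along each primitive recursive sequence of finite presentations of groups of type (FP) without proper subgroups of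
finite index; some limit computable set is not reducible to type (FF) by such a sequence of presentations.
-/

set_option autoImplicit false

namespace Pool.Agent.Results.MP_d19827_al.LimitHardness

open Pool.Agent.Hhelper49.Srr Pool.Agent.Hhelper49.Srf Pool.Agent.SDec

theorem result :
    (∀ (G : Type) [Group G], TypeFP G →
      ∃ (U : Type) (_ : Group U), TypeFF U ∧ (∃ j : G →* U, Function.Injective j) ∧
        (Group.IsFinitelyPresented G → Group.IsFinitelyPresented U) ∧
        ∀ u : ℕ → U, FinGen u → ∀ c : ℕ → ℕ, LimComp c → ∃ W : ℕ → List Word, Primrec W ∧ ∀ e,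
          TypeFP (wsub u (W e)) ∧
          (Group.IsFinitelyPresented G → Group.IsFinitelyPresented (wsub u (W e))) ∧
          (∀ m : ℕ, FreeRes m (wsub u (W e)) ↔ FreeRes (m * c e) G) ∧
          ∃ j : G →* wsub u (W e), Function.Injective j) ∧
    (∀ (G : Type) [Group G], Group.IsFinitelyPresented G → TypeFP G →
      ∀ c : ℕ → ℕ, LimComp c → ∃ f : ℕ → Pres, Primrec f ∧ ∀ e,
        TypeFP (Gp (f e)) ∧ (∀ H : Subgroup (Gp (f e)), H.FiniteIndex → H = ⊤) ∧
        (∀ m : ℕ, FreeRes m (Gp (f e)) ↔ FreeRes (m * c e) G) ∧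
        ∃ j : G →* Gp (f e), Function.Injective j) ∧
    List.TFAE [∀ (G : Type) [Group G], TypeFP G → TypeFF G,
      ∀ (U : Type) [Group U] (u : ℕ → U), TypeFF U → FinGen u →
        ∀ W : ℕ → List Word, Primrec W → (∀ e, TypeFP (wsub u (W e))) →
        ∃ (g : ℕ → ℕ → Bool) (b : ℕ → ℕ), Computable₂ g ∧ Computable b ∧
          ∀ e, Decides (g e) (b e) (TypeFF (wsub u (W e))),
      ∀ (U : Type) [Group U] (u : ℕ → U), TypeFF U → FinGen u → ∃ S : Set ℕ, LimSet S ∧
        ¬ ∃ W : ℕ → List Word, Primrec W ∧
          ∀ e, TypeFP (wsub u (W e)) ∧ (e ∈ S ↔ TypeFF (wsub u (W e)))] ∧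
    List.TFAE [∀ (G : Type) [Group G], Group.IsFinitelyPresented G → TypeFP G → TypeFF G,
      ∀ (U : Type) [Group U] (u : ℕ → U), Group.IsFinitelyPresented U → TypeFF U → FinGen u →
        ∀ W : ℕ → List Word, Primrec W →
        (∀ e, Group.IsFinitelyPresented (wsub u (W e)) ∧ TypeFP (wsub u (W e))) →
        ∃ (g : ℕ → ℕ → Bool) (b : ℕ → ℕ), Computable₂ g ∧ Computable b ∧
          ∀ e, Decides (g e) (b e) (TypeFF (wsub u (W e))),
      ∀ (U : Type) [Group U] (u : ℕ → U), Group.IsFinitelyPresented U → TypeFF U → FinGen u →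
        ∃ S : Set ℕ, LimSet S ∧ ¬ ∃ W : ℕ → List Word, Primrec W ∧
          ∀ e, Group.IsFinitelyPresented (wsub u (W e)) ∧ TypeFP (wsub u (W e)) ∧
            (e ∈ S ↔ TypeFF (wsub u (W e))),
      ∃ q : Pres → Prop, ComputablePred q ∧ ∀ p, TypeFP (Gp p) → (q p ↔ TypeFF (Gp p)),
      ∀ f : ℕ → Pres, Primrec f →
        (∀ e, TypeFP (Gp (f e)) ∧ ∀ H : Subgroup (Gp (f e)), H.FiniteIndex → H = ⊤) →
        ∃ (g : ℕ → ℕ → Bool) (b : ℕ → ℕ), Computable₂ g ∧ Computable b ∧
          ∀ e, Decides (g e) (b e) (TypeFF (Gp (f e))),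
      ∃ S : Set ℕ, LimSet S ∧ ¬ ∃ f : ℕ → Pres, Primrec f ∧
        ∀ e, TypeFP (Gp (f e)) ∧ (∀ H : Subgroup (Gp (f e)), H.FiniteIndex → H = ⊤) ∧
          (e ∈ S ↔ TypeFF (Gp (f e)))] := by
  have hS : ∀ (G : Type) [Group G], ¬ FreeRes 1 G → ∀ (S : Set ℕ) [DecidablePred (· ∈ S)]
      (e : ℕ) (A : Prop), (A ↔ FreeRes (1 * if e ∈ S then 0 else 1) G) → (e ∈ S ↔ A) := by
    intro G _ h1 S _ e A hA
    rw [hA]
    by_cases he : e ∈ S
    · rw [if_pos he]
      exact ⟨fun _ => freeRes_zero G, fun _ => he⟩
    · rw [if_neg he]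
      exact ⟨fun h3 => absurd h3 he, fun h3 => absurd h3 h1⟩
  have hE : LimSet (∅ : Set ℕ) :=
    ⟨fun _ _ => false, Computable.const false, fun e => ⟨0, fun s _ => by simp⟩⟩
  refine ⟨fun G _ hF => gen_univ G hF, fun G _ hG hF c hc => lim_family G hG hF c hc, ?_, ?_⟩
  · have key : ∀ (P : Prop), (∀ (G : Type) [Group G], TypeFP G → ¬ FreeRes 1 G → ¬ P) → P →
        ∀ (G : Type) [Group G], TypeFP G → TypeFF G := by
      intro P h hP G _ hF
      rw [SFP.typeFF_iff]
      by_contra h1
      exact h G hF h1 hP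
    tfae_have 1 → 2 := by
      intro h U _ u _ _ W _ hW
      exact ⟨fun _ _ => true, fun _ => 0, Computable.const true, Computable.const 0, fun e =>
        decides_const true (fun _ => rfl) ⟨fun _ => h _ (hW e), fun _ => rfl⟩⟩
    tfae_have 2 → 1 := by
      refine key _ fun G _ hF h1 h => ?_
      obtain ⟨U, iU, hU, -, -, hu⟩ := gen_univ G hF
      obtain ⟨u, hg⟩ := finGen_exists U (fg_of_typeFP U (typeFP_of_typeFF U hU))
      obtain ⟨W, hW, h2⟩ := hu u hg diagc diagc_lim
      obtain ⟨g, b, hg, hb, h3⟩ := h U u hU hg W hW fun e => (h2 e).1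
      refine no_decides G h1 (fun e => TypeFF (wsub u (W e))) (fun e => ?_) g b hg hb h3
      rw [SFP.typeFF_iff]
      exact (h2 e).2.2.1 1
    tfae_have 1 → 3 := by
      intro h U _ u _ _
      refine ⟨∅, hE, ?_⟩
      rintro ⟨W, -, hW⟩
      obtain ⟨h1, h2⟩ := hW 0
      exact h2.2 (h _ h1)
    tfae_have 3 → 1 := by
      classical
      refine key _ fun G _ hF h1 h => ?_
      obtain ⟨U, iU, hU, -, -, hu⟩ := gen_univ G hF
      obtain ⟨u, hg⟩ := finGen_exists U (fg_of_typeFP U (typeFP_of_typeFF U hU))
      obtain ⟨S, hS', hn⟩ := h U u hU hg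
      obtain ⟨W, hW, h2⟩ := hu u hg _ (limSet_comp hS')
      refine hn ⟨W, hW, fun e => ⟨(h2 e).1, ?_⟩⟩
      refine hS G h1 S e _ ?_
      rw [SFP.typeFF_iff, (h2 e).2.2.1 1]
    tfae_finish
  · have key : ∀ (P : Prop), (∀ (G : Type) [Group G], Group.IsFinitelyPresented G → TypeFP G →
        ¬ FreeRes 1 G → ¬ P) → P → ∀ (G : Type) [Group G], Group.IsFinitelyPresented G →
        TypeFP G → TypeFF G := by
      intro P h hP G _ hG hF
      rw [SFP.typeFF_iff]
      by_contra h1
      exact h G hG hF h1 hP
    tfae_have 1 → 2 := by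
      intro h U _ u _ _ _ W _ hW
      exact ⟨fun _ _ => true, fun _ => 0, Computable.const true, Computable.const 0, fun e =>
        decides_const true (fun _ => rfl) ⟨fun _ => h _ (hW e).1 (hW e).2, fun _ => rfl⟩⟩
    tfae_have 2 → 1 := by
      refine key _ fun G _ hG hF h1 h => ?_
      obtain ⟨U, iU, hU, -, hp, hu⟩ := gen_univ G hF
      obtain ⟨u, hg⟩ := finGen_exists U (fg_of_typeFP U (typeFP_of_typeFF U hU))
      obtain ⟨W, hW, h2⟩ := hu u hg diagc diagc_lim
      obtain ⟨g, b, hg, hb, h3⟩ := h U u (hp hG) hU hg W hW fun e => ⟨(h2 e).2.1 hG, (h2 e).1⟩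
      refine no_decides G h1 (fun e => TypeFF (wsub u (W e))) (fun e => ?_) g b hg hb h3
      rw [SFP.typeFF_iff]
      exact (h2 e).2.2.1 1
    tfae_have 1 → 3 := by
      intro h U _ u _ _ _
      refine ⟨∅, hE, ?_⟩
      rintro ⟨W, -, hW⟩
      obtain ⟨h0, h1, h2⟩ := hW 0
      exact h2.2 (h _ h0 h1)
    tfae_have 3 → 1 := by
      classical
      refine key _ fun G _ hG hF h1 h => ?_
      obtain ⟨U, iU, hU, -, hp, hu⟩ := gen_univ G hF
      obtain ⟨u, hg⟩ := finGen_exists U (fg_of_typeFP U (typeFP_of_typeFF U hU))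
      obtain ⟨S, hS', hn⟩ := h U u (hp hG) hU hg
      obtain ⟨W, hW, h2⟩ := hu u hg _ (limSet_comp hS')
      refine hn ⟨W, hW, fun e => ⟨(h2 e).2.1 hG, (h2 e).1, ?_⟩⟩
      refine hS G h1 S e _ ?_
      rw [SFP.typeFF_iff, (h2 e).2.2.1 1]
    tfae_have 1 → 4 := by
      intro h
      refine ⟨fun _ => True, ⟨fun _ => isTrue trivial, ?_⟩, fun p hp => ?_⟩
      · exact (Computable.const true).of_eq fun _ => by simp
      · exact ⟨fun _ => h _ (gp_fpres p) hp, fun _ => trivial⟩
    tfae_have 4 → 5 := by
      rintro ⟨q, ⟨dq, hq⟩, h⟩ f hf hfe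
      refine ⟨fun e _ => decide (q (f e)), fun _ => 0,
        (hq.comp hf.to_comp).comp Computable.fst, Computable.const 0, fun e => ?_⟩
      exact decides_const (decide (q (f e))) (fun _ => rfl)
        (by rw [decide_eq_true_iff]; exact h (f e) (hfe e).1)
    tfae_have 5 → 1 := by
      refine key _ fun G _ hG hF h1 h => ?_
      obtain ⟨f, hf, h2⟩ := lim_family G hG hF diagc diagc_lim
      obtain ⟨g, b, hg, hb, h3⟩ := h f hf fun e => ⟨(h2 e).1, (h2 e).2.1⟩
      refine no_decides G h1 (fun e => TypeFF (Gp (f e))) (fun e => ?_) g b hg hb h3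
      rw [SFP.typeFF_iff]
      exact (h2 e).2.2.1 1
    tfae_have 1 → 6 := by
      intro h
      refine ⟨∅, hE, ?_⟩
      rintro ⟨f, -, hf⟩
      obtain ⟨h1, -, h2⟩ := hf 0
      exact h2.2 (h _ (gp_fpres _) h1)
    tfae_have 6 → 1 := by
      classical
      refine key _ fun G _ hG hF h1 => ?_
      rintro ⟨S, hS', h⟩
      obtain ⟨f, hf, h2⟩ := lim_family G hG hF _ (limSet_comp hS')
      refine h ⟨f, hf, fun e => ⟨(h2 e).1, (h2 e).2.1, ?_⟩⟩
      refine hS G h1 S e _ ?_
      rw [SFP.typeFF_iff, (h2 e).2.2.1 1]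
    tfae_finish

end Pool.Agent.Results.MP_d19827_al.LimitHardness
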