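import Pool.Agent.Hhelper49.Qiv.Fin

/-!
# Serre's question (FP) => (FF) and quasi-isometries

`TypeFP G`, `TypeFF G`, `FreeRes m G` (files Hhelper49/Srr/GDefs.lean): the trivial module `ℤ` (respectively `ℤ^m`) has a
resolution of finite length by finitely generated projective (respectively free) `ℤ[G]`-modules.
`QuasiIsometric G H`, `BiLipschitz G H` (file Hhelper49/Qiv/Geo4.lean): `G` and `H` are finitely generated and, with word
metrics for some finite generating sets, quasi-isometric, respectively bi-Lipschitz equivalent by a bijection.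
`StFree G P` (SFP/Fin1.lean): `P ⊕ ℤ[G]^a ≃ ℤ[G]^b` for some `a`, `b`.

1. Serre's question has a positive answer if and only if type (FF) is a quasi-isometry invariant of groups of type (FP), if
and only if it is invariant under bi-Lipschitz equivalence.
2. The same holds for finitely presented groups (there type (FF) means: there is a finite Eilenberg-MacLane complex).
3. For every group `G` of type (FP) there are a group `Γ` of type (FF) and a bi-Lipschitz equivalent group `Δ` of type (FP)
with a retraction onto `G` such that `ℤ^m` has a finite free resolution over `ℤ[Δ]` if and only if it has one over `ℤ[G]`.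
In fact `Γ = G × (ℤ * (F_2 × F_2))` and `Δ = G × (ℤ * (F_2 × F_3))`.
4. Every finitely generated projective module over `ℤ[G]` is realised in this way by groups `Γ`, `Δ`.
-/

namespace Pool.Agent.Results.MP_d19827_al.QuasiIsometry

open Pool.Agent.Hhelper49.Srr Pool.Agent.Hhelper49.Qiv Pool.Agent.SFP

theorem result :
    List.TFAE [
      ∀ (G : Type) [Group G], TypeFP G → TypeFF G,
      ∀ (G H : Type) [Group G] [Group H], TypeFP G → TypeFP H → QuasiIsometric G H →
        TypeFF G → TypeFF H,
      ∀ (G H : Type) [Group G] [Group H], TypeFP G → TypeFP H → BiLipschitz G H →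
        TypeFF G → TypeFF H] ∧
    List.TFAE [
      ∀ (G : Type) [Group G], Group.IsFinitelyPresented G → TypeFP G → TypeFF G,
      ∀ (G H : Type) [Group G] [Group H], Group.IsFinitelyPresented G →
        Group.IsFinitelyPresented H → TypeFP G → TypeFP H → QuasiIsometric G H →
        TypeFF G → TypeFF H,
      ∀ (G H : Type) [Group G] [Group H], Group.IsFinitelyPresented G →
        Group.IsFinitelyPresented H → TypeFP G → TypeFP H → BiLipschitz G H →
        TypeFF G → TypeFF H] ∧
    (∀ (G : Type) [Group G], TypeFP G →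
      ∃ (Γ Δ : Type) (_ : Group Γ) (_ : Group Δ) (i : G →* Δ) (r : Δ →* G),
        (∀ g, r (i g) = g) ∧ TypeFF Γ ∧ TypeFP Δ ∧ BiLipschitz Γ Δ ∧
        (∀ m, FreeRes m Δ ↔ FreeRes m G) ∧
        (Group.IsFinitelyPresented G →
          Group.IsFinitelyPresented Γ ∧ Group.IsFinitelyPresented Δ)) ∧
    ∀ (G : Type) [Group G], TypeFP G → ∀ (P : Type) [AddCommGroup P]
      [Module (MonoidAlgebra ℤ G) P], Module.Finite (MonoidAlgebra ℤ G) P →
        Module.Projective (MonoidAlgebra ℤ G) P →
      ∃ (Γ Δ : Type) (_ : Group Γ) (_ : Group Δ) (i : G →* Δ) (r : Δ →* G),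
        (∀ g, r (i g) = g) ∧ TypeFF Γ ∧ TypeFP Δ ∧ BiLipschitz Γ Δ ∧
        (∀ m, FreeRes m Δ ↔ StFree G (Fin m → P)) ∧
        (Group.IsFinitelyPresented G →
          Group.IsFinitelyPresented Γ ∧ Group.IsFinitelyPresented Δ) := by
  refine ⟨?_, ?_, fun G _ hG => pair_exists G hG, fun G _ hG P _ _ h1 h2 => pair_proj G hG P h1 h2⟩
  · tfae_have 1 → 2 := fun h G H _ _ _ hH _ _ => h H hH
    tfae_have 2 → 3 := fun h G H _ _ hG hH hb hf => h G H hG hH hb.quasi hf
    tfae_have 3 → 1 := by
      intro h G _ hG
      exact serre_of_bl (fun _ _ => True) (fun _ _ _ => ⟨trivial, trivial⟩)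
        (fun G H _ _ _ _ => h G H) G trivial hG
    tfae_finish
  · tfae_have 1 → 2 := fun h G H _ _ _ hH' _ hH _ _ => h H hH' hH
    tfae_have 2 → 3 := fun h G H _ _ hG' hH' hG hH hb hf => h G H hG' hH' hG hH hb.quasi hf
    tfae_have 3 → 1 := by
      intro h G _ hG' hG
      exact serre_of_bl (fun G _ => Group.IsFinitelyPresented G)
        (fun G _ hp => ⟨fpres_KF 2 G hp, fpres_KF 3 G hp⟩) h G hG' hG
    tfae_finish

end Pool.Agent.Results.MP_d19827_al.QuasiIsometry
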