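import Pool.Agent.VFm.Gen

/-!
# Serre's question (FP) => (FF) and subgroups of finite index

`TypeFP G`, `TypeFF G`, `FreeRes m G` (file Hhelper49/Srr/GDefs.lean): the trivial module `ℤ` (respectively `ℤ^m`) has a
resolution of finite length by finitely generated projective (respectively free) `ℤ[G]`-modules.
`StFree G P` (SFP/Fin1.lean): `P ⊕ ℤ[G]^a ≃ ℤ[G]^b` for some `a`, `b`.  `StFreeOn H P` (VFL/Res.lean): the
`ℤ[G]`-module `P`, restricted to `ℤ[H]`, is stably free.  `Commens G H`, `ResInj G H` (VFm/Gen.lean): `G` and `H` have
isomorphic subgroups of finite index; every finitely generated projective `ℤ[G]`-module which is stably free over `ℤ[H]`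
is stably free over `ℤ[G]` (restriction is injective on the reduced projective class groups).

Let `C` be the class of all groups or the class of finitely presented groups.
1. Equivalent: type (FF) is invariant under commensurability of groups of type (FP) in `C`; a group of type (FP) in `C`
with a subgroup of finite index of type (FF) is of type (FF); the same for normal subgroups of prime index; for all groups
of type (FP) in `C` restriction to subgroups of finite index is injective on the reduced projective class groups; the same
for groups of type (FF) in `C` and normal subgroups of prime index.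
2. For each `m > 0` the corresponding statements on normal subgroups of index `m` are equivalent, and they imply that for
`G` of type (FP) in `C` modules `P` with `P^m` stably free are stably free, and that `G` is of type (FF) if `ℤ^m` has a
finite free resolution.
3. Serre's question has a positive answer if and only if the statements of 1 hold (for all groups) and for every group `G`
of type (FP) and every finitely generated projective `ℤ[G]`-module `P` some `P^m`, `m > 0`, is stably free.  The latter
is equivalent to: for every group `G` of type (FP) without proper subgroups of finite index some `ℤ^m`, `m > 0`, has a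
finite free resolution; and to: for every group `G` of type (FP) the group `G × F₂` has a subgroup of finite index of
type (FF).
4. For `G` of type (FP) and `P` finitely generated projective there is a group `R` of type (FP), finitely presented if `G`
is, with a retraction `r` onto `G`, such that `R` is of type (FF) if and only if `P` is stably free, and for all subgroups `H`
of finite index of `G` and all `m` the module `ℤ^m` has a finite free resolution over `ℤ[r⁻¹(H)]` if and only if `P^m` is
stably free over `ℤ[H]`.
-/

namespace Pool.Agent.Results.MP_d19827_al.VirtualForm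

open Pool.Agent.Hhelper49.Srr Pool.Agent.SFP Pool.Agent.VFL Pool.Agent.VFm

theorem result :
    (∀ C : ∀ (G : Type) [Group G], Prop,
      ((∀ (G : Type) [Group G], C G) ∨
        ∀ (G : Type) [Group G], C G ↔ Group.IsFinitelyPresented G) →
      List.TFAE [
        ∀ (G H : Type) [Group G] [Group H], C G → C H → TypeFP G → TypeFP H → Commens G H →
          TypeFF G → TypeFF H,
        ∀ (G : Type) [Group G], C G → TypeFP G → ∀ (H : Subgroup G) [H.FiniteIndex],
          TypeFF H → TypeFF G,
        ∀ (G : Type) [Group G], C G → TypeFP G → ∀ (N : Subgroup G) [N.Normal],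
          N.index.Prime → TypeFF N → TypeFF G,
        ∀ (G : Type) [Group G], C G → TypeFP G → ∀ (H : Subgroup G) [H.FiniteIndex],
          ResInj G H,
        ∀ (G : Type) [Group G], C G → TypeFF G → ∀ (N : Subgroup G) [N.Normal],
          N.index.Prime → ResInj G N] ∧
      ∀ m : ℕ, 0 < m →
        List.TFAE [
          ∀ (G : Type) [Group G], C G → TypeFP G → ∀ (N : Subgroup G) [N.Normal],
            N.index = m → TypeFF N → TypeFF G,
          ∀ (G : Type) [Group G], C G → TypeFP G → ∀ (N : Subgroup G) [N.Normal],
            N.index = m → ResInj G N,
          ∀ (G : Type) [Group G], C G → TypeFF G → ∀ (N : Subgroup G) [N.Normal],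
            N.index = m → ResInj G N] ∧
        ((∀ (G : Type) [Group G], C G → TypeFP G → ∀ (N : Subgroup G) [N.Normal],
            N.index = m → TypeFF N → TypeFF G) →
          ∀ (G : Type) [Group G], C G → TypeFP G →
            (FreeRes m G → TypeFF G) ∧
            ∀ (P : Type) [AddCommGroup P] [Module (MonoidAlgebra ℤ G) P],
              Module.Finite (MonoidAlgebra ℤ G) P → Module.Projective (MonoidAlgebra ℤ G) P →
                StFree G (Fin m → P) → StFree G P)) ∧
    (((∀ (G : Type) [Group G], TypeFP G → TypeFF G) ↔
      (∀ (G : Type) [Group G], TypeFP G → ∀ (H : Subgroup G) [H.FiniteIndex],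
        TypeFF H → TypeFF G) ∧
      ∀ (G : Type) [Group G], TypeFP G → ∀ (P : Type) [AddCommGroup P]
        [Module (MonoidAlgebra ℤ G) P], Module.Finite (MonoidAlgebra ℤ G) P →
          Module.Projective (MonoidAlgebra ℤ G) P → ∃ m : ℕ, 0 < m ∧ StFree G (Fin m → P)) ∧
    List.TFAE [
      ∀ (G : Type) [Group G], TypeFP G → ∀ (P : Type) [AddCommGroup P]
        [Module (MonoidAlgebra ℤ G) P], Module.Finite (MonoidAlgebra ℤ G) P →
          Module.Projective (MonoidAlgebra ℤ G) P → ∃ m : ℕ, 0 < m ∧ StFree G (Fin m → P),
      ∀ (G : Type) [Group G], TypeFP G → (∀ H : Subgroup G, H.FiniteIndex → H = ⊤) →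
        ∃ m : ℕ, 0 < m ∧ FreeRes m G,
      ∀ (G : Type) [Group G], TypeFP G →
        ∃ H : Subgroup (G × FreeGroup (Fin 2)), H.FiniteIndex ∧ TypeFF H]) ∧
    ∀ (G : Type) [Group G], TypeFP G → ∀ (P : Type) [AddCommGroup P]
      [Module (MonoidAlgebra ℤ G) P], Module.Finite (MonoidAlgebra ℤ G) P →
        Module.Projective (MonoidAlgebra ℤ G) P →
          ∃ (R : Type) (_ : Group R) (i : G →* R) (r : R →* G), (∀ g, r (i g) = g) ∧ TypeFP R ∧
            (Group.IsFinitelyPresented G → Group.IsFinitelyPresented R) ∧
            (TypeFF R ↔ StFree G P) ∧
            ∀ (H : Subgroup G) [H.FiniteIndex] (m : ℕ), FreeRes m (H.comap r) ↔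
              StFreeOn H (Fin m → P) := by
  refine ⟨?_, ⟨serre_split', rat_tfae'⟩, ?_⟩
  · intro C hC
    exact ⟨all_primes hC, fun m hm => ⟨one_prime hC m hm.ne', fun h G _ hCG hG =>
      no_torsion hC m hm h G hCG hG⟩⟩
  · intro G _ hG P _ _ h1 h2
    exact point_fpH' G hG P h1 h2

end Pool.Agent.Results.MP_d19827_al.VirtualForm
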